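import Pool.Agent.Run7.h601.ZN.Stm

/-!
# Project ZN (helper601), piece CNJ: the character of the inverse is the conjugate
-/

set_option autoImplicit false

namespace Run7.h376.ZN

open Finset CategoryTheory Matrix
open Pool.Agent.Run7.h601.ZN
open scoped ComplexOrder

theorem conj_trace {G : Type} [Group G] [Fintype G] {m : Type} [Fintype m] [DecidableEq m]
    (M : G →* Matrix m m ℂ) (g : G) : (M g⁻¹).trace = (starRingEnd ℂ) (M g).trace := by
  obtain ⟨H, hH⟩ : ∃ H : Matrix m m ℂ, H = ∑ x, (M x)ᴴ * M x := ⟨_, rfl⟩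
  have hpos : H.PosDef := by
    classical
    rw [hH, ← Finset.add_sum_erase _ _ (Finset.mem_univ (1 : G))]
    apply Matrix.PosDef.add_posSemidef
    · rw [map_one, conjTranspose_one, one_mul]
      exact Matrix.PosDef.one
    · exact Matrix.posSemidef_sum _ (fun x _ => Matrix.posSemidef_conjTranspose_mul_self _)
  have hu : IsUnit H.det := (Matrix.isUnit_iff_isUnit_det H).1 hpos.isUnit
  have h1 : (M g)ᴴ * H * M g = H := by
    have e : (M g)ᴴ * H * M g = ∑ x, (M (x * g))ᴴ * M (x * g) := by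
      rw [hH, Finset.mul_sum, Finset.sum_mul]
      apply Finset.sum_congr rfl
      intro x _
      rw [map_mul, conjTranspose_mul]
      simp only [Matrix.mul_assoc]
    rw [e, hH]
    exact Equiv.sum_comp (Equiv.mulRight g) (fun x => (M x)ᴴ * M x)
  have h2 : M g * M g⁻¹ = 1 := by rw [← map_mul, mul_inv_cancel, map_one]
  have h3 : (M g)ᴴ = H * M g⁻¹ * H⁻¹ := by
    have e : (M g)ᴴ * H = H * M g⁻¹ := by
      calc (M g)ᴴ * H = (M g)ᴴ * H * (M g * M g⁻¹) := by rw [h2, mul_one]
        _ = (M g)ᴴ * H * M g * M g⁻¹ := by simp only [Matrix.mul_assoc]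
        _ = _ := by rw [h1]
    rw [← e, Matrix.mul_nonsing_inv_cancel_right _ _ hu]
  have h4 : (M g)ᴴ.trace = (M g⁻¹).trace := by
    rw [h3, Matrix.trace_mul_comm, ← Matrix.mul_assoc, Matrix.nonsing_inv_mul _ hu, one_mul]
  rw [← h4, Matrix.trace_conjTranspose]
  rfl

theorem t_CNJ : S_CNJ := by
  intro G _ _ V g
  have : Fintype G := Fintype.ofFinite G
  have b := Module.finBasis ℂ V
  obtain ⟨M, hM⟩ : ∃ M : G →* Matrix (Fin (Module.finrank ℂ V)) (Fin (Module.finrank ℂ V)) ℂ,
      ∀ x, M x = LinearMap.toMatrix b b (V.ρ x) :=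
    ⟨{ toFun := fun x => LinearMap.toMatrix b b (V.ρ x)
       map_one' := by
        rw [map_one]
        exact LinearMap.toMatrix_one b
       map_mul' := fun x y => by
        rw [map_mul]
        exact LinearMap.toMatrix_mul b _ _ }, fun _ => rfl⟩
  have e : ∀ x : G, V.character x = (M x).trace := by
    intro x
    rw [hM]
    exact LinearMap.trace_eq_matrix_trace ℂ b (V.ρ x)
  rw [e, e]
  exact conj_trace M g

end Run7.h376.ZN
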