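import Pool.Agent.Run7.h601.ZN.Stm

/-!
# Project ZN (helper601), piece DIV: the order of the group divides the product of the degrees
-/

set_option autoImplicit false

namespace Run7.h376.ZN

open Finset CategoryTheory MonoidalCategory
open Pool.Agent.Run7.h601.ZN

/-- the tensor product of a list of representations -/
noncomputable def tens {G : Type} [Group G] : List (FDRep ℂ G) → FDRep ℂ G
  | [] => FDRep.of (Representation.trivial ℂ G ℂ)
  | V :: L => V ⊗ tens L

theorem char_tens {G : Type} [Group G] (L : List (FDRep ℂ G)) (g : G) :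
    (tens L).character g = (L.map (fun V : FDRep ℂ G => V.character g)).prod := by
  induction L with
  | nil =>
    show LinearMap.trace ℂ _ ((FDRep.of (Representation.trivial ℂ G ℂ)).ρ g) = 1
    rw [FDRep.of_ρ']
    show LinearMap.trace ℂ ℂ (LinearMap.id) = 1
    rw [LinearMap.trace_id, Module.finrank_self, Nat.cast_one]
  | cons V L ih =>
    show (V ⊗ tens L).character g = _
    rw [FDRep.char_tensor, Pi.mul_apply, ih, List.map_cons, List.prod_cons]

theorem t_DIV : S_DIV := by
  intro G _ _ L h
  classical
  have hc : (Nat.card G : ℂ) ≠ 0 := by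
    rw [Nat.card_eq_fintype_card]
    exact_mod_cast Fintype.card_ne_zero
  have : Invertible (Nat.card G : ℂ) := invertibleOfNonzero hc
  have h1 := FDRep.average_char_eq_finrank_invariants (tens L)
  have h2 : ∑ g : G, (tens L).character g = (((L.map (fun V : FDRep ℂ G => Module.finrank ℂ V)).prod : ℕ) : ℂ) := by
    rw [Finset.sum_eq_single (1 : G)]
    · rw [char_tens, Nat.cast_list_prod, List.map_map]
      congr 1
      apply List.map_congr_left
      intro V _
      exact FDRep.char_one V
    · intro g _ hg
      rw [char_tens]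
      obtain ⟨V, hV, h0⟩ := h g hg
      exact List.prod_eq_zero (List.mem_map.2 ⟨V, hV, h0⟩)
    · intro h0
      exact absurd (Finset.mem_univ _) h0
  rw [h2] at h1
  have h3 : (((L.map (fun V : FDRep ℂ G => Module.finrank ℂ V)).prod : ℕ) : ℂ) =
      ((Fintype.card G * Module.finrank ℂ (Representation.invariants (tens L).ρ) : ℕ) : ℂ) := by
    rw [Nat.cast_mul, ← h1, ← Nat.card_eq_fintype_card, ← mul_assoc, mul_inv_cancel₀ hc, one_mul]
  exact ⟨_, by exact_mod_cast h3⟩

end Run7.h376.ZN
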